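import Pool.Agent.L0h99.MN.Stm

set_option autoImplicit false
set_option linter.all false

/-! Project MN: module PAK (helper24). -/

namespace Pool.Agent.L0h24.MN

open Finset Pool.Agent.L0h99.MN

/-- edges with pairwise disjoint balls -/
def Pk {V : Type} [Fintype V] [DecidableEq V] (G : SimpleGraph V) (M : Finset (V × V)) : Prop :=
  (∀ e ∈ M, G.Adj e.1 e.2) ∧ ∀ e ∈ M, ∀ e' ∈ M, e ≠ e' → Disjoint (Bl G e) (Bl G e')

theorem PAK : St_PAK := by
  classical
  intro V _ _ G hdeg ⟨a, b, hab⟩
  have hne : ((univ : Finset (Finset (V × V))).filter (fun M => Pk G M)).Nonempty :=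
    ⟨{(a, b)}, by
      rw [mem_filter]
      refine ⟨mem_univ _, ?_, ?_⟩
      · intro e he
        rw [mem_singleton] at he
        rw [he]
        exact hab
      · intro e he e' he' hee
        rw [mem_singleton] at he he'
        exact absurd (he.trans he'.symm) hee⟩
  obtain ⟨M, hM, hmax⟩ := exists_max_image _ (fun M : Finset (V × V) => M.card) hne
  rw [mem_filter] at hM
  obtain ⟨-, hM1, hM2⟩ := hM
  have hcard : 1 ≤ M.card := by
    have h := hmax {(a, b)} (by
      rw [mem_filter]
      refine ⟨mem_univ _, ?_, ?_⟩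
      · intro e he
        rw [mem_singleton] at he
        rw [he]
        exact hab
      · intro e he e' he' hee
        rw [mem_singleton] at he he'
        exact absurd (he.trans he'.symm) hee)
    rwa [card_singleton] at h
  have mU : ∀ x, x ∈ UU G M ↔ (∃ y, G.Adj x y) ∧ ∀ e ∈ M, x ∉ Bl G e := by
    intro x
    unfold UU
    rw [mem_filter]
    exact ⟨fun h => h.2, fun h => ⟨mem_univ _, h⟩⟩
  have mH : ∀ x, x ∈ HH G M ↔ x ∈ UU G M ∧ ∀ y, G.Adj x y → y ∈ UU G M := by
    intro x
    unfold HH
    rw [mem_filter]
  refine ⟨M, card_pos.1 hcard, hM1, hM2, ?_⟩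
  constructor
  · intro x hx
    exact ((mH x).1 hx).1
  · intro x hx
    obtain ⟨y, hy⟩ := ((mU x).1 hx).1
    exact hdeg x y hy
  · intro h hh y hy
    exact ((mH h).1 hh).2 y hy
  · intro h hh g hg hadj
    have h1 := (mH h).1 hh
    have h2 := (mH g).1 hg
    have hB : ∀ z ∈ Bl G (h, g), z ∈ UU G M := by
      intro z hz
      unfold Bl at hz
      rw [mem_union, mem_N, mem_N] at hz
      rcases hz with hz | hz
      · exact h1.2 z hz
      · exact h2.2 z hz
    have hself : h ∈ Bl G (h, g) := by
      unfold Bl
      rw [mem_union, mem_N, mem_N]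
      exact Or.inr hadj.symm
    have hnot : (h, g) ∉ M := by
      intro hmem
      exact ((mU h).1 h1.1).2 _ hmem hself
    have hdis : ∀ e ∈ M, Disjoint (Bl G (h, g)) (Bl G e) := by
      intro e he
      rw [disjoint_left]
      intro z hz hz'
      exact ((mU z).1 (hB z hz)).2 e he hz'
    have hP : Pk G (insert (h, g) M) := by
      refine ⟨?_, ?_⟩
      · intro e he
        rcases mem_insert.1 he with rfl | he
        · exact hadj
        · exact hM1 e he
      · intro e he e' he' hee
        rcases mem_insert.1 he with rfl | he <;> rcases mem_insert.1 he' with rfl | he'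
        · exact absurd rfl hee
        · exact hdis e' he'
        · exact (hdis e he).symm
        · exact hM2 e he e' he' hee
    have h3 := hmax _ (mem_filter.2 ⟨mem_univ _, hP⟩)
    rw [card_insert_of_notMem hnot] at h3
    omega
  · intro x hx hx'
    by_contra hcon
    push Not at hcon
    apply hx'
    rw [mH]
    exact ⟨hx, hcon⟩

end Pool.Agent.L0h24.MN
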